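import Mathlib

/-! The Cantor space: flips, sections of open sets, Kuratowski-Ulam for open sets. -/

set_option autoImplicit false

namespace Pool.Agent.Y139.LZ

open Topology Filter Set

/-- the Cantor space -/
abbrev C : Type := ℕ → Bool

/-- sequences in the Cantor space -/
abbrev P : Type := ℕ → C

/-- add a first member -/
def cons (c : C) (z : P) : P := fun n => Nat.casesOn n c z

theorem cons_zero (c : C) (z : P) : cons c z 0 = c := rfl

theorem cons_succ (c : C) (z : P) (n : ℕ) : cons c z (n + 1) = z n := rfl

theorem continuous_cons (c : C) : Continuous (cons c) := by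
  refine continuous_pi fun n => ?_
  cases n with
  | zero => exact continuous_const
  | succ n => exact continuous_apply n

theorem continuous_cons_left (z : P) : Continuous fun c => cons c z := by
  refine continuous_pi fun n => ?_
  cases n with
  | zero => exact continuous_id
  | succ n => exact continuous_const

/-- the section -/
def sec (V : Set P) (y : C) : Set P := {z | cons y z ∈ V}

/-- the section for a list -/
def secs (V : Set P) : List C → Set P
  | [] => V
  | c :: l => secs (sec V c) l

/-- a list followed by a sequence -/
def app : List C → P → P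
  | [], z => z
  | c :: l, z => cons c (app l z)

theorem mem_secs (V : Set P) (l : List C) (z : P) : z ∈ secs V l ↔ app l z ∈ V := by
  induction l generalizing V with
  | nil => rfl
  | cons c l ih =>
    unfold secs app
    rw [ih]
    rfl

theorem secs_append (V : Set P) (l : List C) (c : C) :
    secs V (l ++ [c]) = sec (secs V l) c := by
  induction l generalizing V with
  | nil => rfl
  | cons a l ih =>
    rw [List.cons_append]
    unfold secs
    rw [ih]

theorem app_get (l : List C) (z : P) (j : ℕ) (h : j < l.length) : app l z j = l[j] := by
  induction l generalizing j with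
  | nil => exact absurd h (Nat.not_lt_zero _)
  | cons c l ih =>
    cases j with
    | zero => rfl
    | succ j =>
      change app l z j = _
      rw [ih j (by simpa using h)]
      rfl

theorem sec_open {V : Set P} (hV : IsOpen V) (y : C) : IsOpen (sec V y) :=
  hV.preimage (continuous_cons y)

theorem secs_open {V : Set P} (hV : IsOpen V) (l : List C) : IsOpen (secs V l) := by
  induction l generalizing V with
  | nil => exact hV
  | cons c l ih => exact ih (sec_open hV c)

/-- **Kuratowski-Ulam for open sets.** -/
theorem ku {V : Set P} (hV : IsOpen V) (hd : Dense V) : {y : C | Dense (sec V y)} ∈ residual C := by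
  have hb := TopologicalSpace.isBasis_countableBasis P
  have h1 : ∀ B ∈ TopologicalSpace.countableBasis P,
      {y : C | B.Nonempty → (B ∩ sec V y).Nonempty} ∈ residual C := by
    intro B hB
    by_cases hne : B.Nonempty
    · refine mem_of_superset (residual_of_dense_open (s := {y | ∃ z ∈ B, cons y z ∈ V}) ?_ ?_)
        fun y ⟨z, hz, hy⟩ _ => ⟨z, hz, hy⟩
      · have : {y | ∃ z ∈ B, cons y z ∈ V} = ⋃ z ∈ B, (fun c => cons c z) ⁻¹' V := by
          ext y
          simp
        rw [this]
        exact isOpen_biUnion fun z _ => hV.preimage (continuous_cons_left z)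
      · rw [dense_iff_inter_open]
        intro A hA hAne
        have hBo : IsOpen B := hb.isOpen hB
        have ho : IsOpen {p : P | p 0 ∈ A ∧ (fun n => p (n + 1)) ∈ B} := by
          refine (hA.preimage (continuous_apply 0)).inter (hBo.preimage ?_)
          exact continuous_pi fun n => continuous_apply (n + 1)
        obtain ⟨a, ha⟩ := hAne
        obtain ⟨b, hb'⟩ := hne
        obtain ⟨p, ⟨hp0, hp1⟩, hpV⟩ := dense_iff_inter_open.1 hd _ ho ⟨cons a b, ha, hb'⟩
        refine ⟨p 0, hp0, fun n => p (n + 1), hp1, ?_⟩
        have : cons (p 0) (fun n => p (n + 1)) = p := by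
          funext n
          cases n <;> rfl
        rwa [this]
    · filter_upwards with y h
      exact absurd h hne
  have h2 := (countable_bInter_mem (TopologicalSpace.countable_countableBasis P)).2 h1
  refine mem_of_superset h2 fun y hy => ?_
  rw [mem_ofPred_eq, hb.dense_iff]
  intro B hB hne
  exact (mem_iInter₂.1 hy B hB) hne

/-! ### Flips -/

theorem flip_tendsto (w : C) : Tendsto (fun n => Function.update w n (!w n)) atTop (𝓝 w) := by
  rw [tendsto_pi_nhds]
  intro i
  refine tendsto_const_nhds.congr' ?_
  filter_upwards [eventually_gt_atTop i] with n hn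
  rw [Function.update_of_ne (by omega)]

/-- a closed set that is left by infinitely many flips is nowhere dense -/
theorem residual_of_flips {R : Set C} (hR : IsClosed R) {S : Set ℕ} (hS : S.Infinite)
    (h : ∀ w ∈ R, ∀ n ∈ S, Function.update w n (!w n) ∉ R) : Rᶜ ∈ residual C := by
  refine residual_of_dense_open hR.isOpen_compl ?_
  rw [dense_iff_inter_open]
  intro U hU ⟨w, hw⟩
  by_cases hwR : w ∈ R
  · have h1 := (flip_tendsto w).eventually (hU.mem_nhds hw)
    rw [eventually_atTop] at h1
    obtain ⟨N, hN⟩ := h1
    obtain ⟨n, hnS, hn⟩ := hS.exists_gt N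
    exact ⟨_, hN n hn.le, h w hwR n hnS⟩
  · exact ⟨w, hw, hwR⟩

theorem singleton_residual (w : C) : ({w}ᶜ : Set C) ∈ residual C := by
  refine residual_of_flips (isClosed_singleton) (S := univ) infinite_univ fun v hv n _ h => ?_
  rw [mem_singleton_iff] at hv h
  rw [hv] at h
  have h1 := congrFun h n
  rw [Function.update_self] at h1
  cases hb : w n <;> rw [hb] at h1 <;> simp at h1

theorem countable_residual {S : Set C} (hS : S.Countable) : Sᶜ ∈ residual C := by
  have h1 := (countable_bInter_mem (l := residual C) (s := fun x _ => ({x}ᶜ : Set C)) hS).2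
    fun x _ => singleton_residual x
  refine mem_of_superset h1 fun y hy hyS => ?_
  exact (mem_iInter₂.1 hy y hyS) rfl

/-! ### The group structure -/

/-- the sum -/
def ad (x s : C) : C := fun n => xor (x n) (s n)

theorem ad_ad (x s : C) : ad (ad x s) s = x := by
  funext n
  simp [ad]

theorem continuous_ad_left (s : C) : Continuous fun x => ad x s :=
  continuous_pi fun n => (continuous_of_discreteTopology (f := fun b => xor b (s n))).comp
    (continuous_apply n)

theorem continuous_ad_right (x : C) : Continuous fun s => ad x s :=
  continuous_pi fun n => (continuous_of_discreteTopology (f := fun b => xor (x n) b)).comp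
    (continuous_apply n)

theorem dense_preimage_ad {t : Set C} (ht : Dense t) (s : C) : Dense {x | ad x s ∈ t} := by
  rw [dense_iff_inter_open] at ht ⊢
  intro U hU ⟨w, hw⟩
  obtain ⟨v, hv, hvt⟩ := ht {x | ad x s ∈ U} (hU.preimage (continuous_ad_left s))
    ⟨ad w s, by rw [mem_ofPred_eq, ad_ad]; exact hw⟩
  exact ⟨ad v s, hv, by rw [mem_ofPred_eq, ad_ad]; exact hvt⟩

/-- the finitely supported elements -/
def Q : Set C := {q | {n | q n = true}.Finite}

theorem Q_countable : Q.Countable := by
  have : Q ⊆ range fun F : Finset ℕ => (fun n => decide (n ∈ F) : C) := by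
    intro q hq
    refine ⟨hq.toFinset, ?_⟩
    funext n
    cases h : q n <;> simp [h]
  exact (countable_range _).mono this

end Pool.Agent.Y139.LZ
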