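import Pool.Agent.Y139.LZ.Step

/-! The construction and the genericity. -/

set_option autoImplicit false

namespace Pool.Agent.Y139.LZ

open Topology Filter Set

section
variable {I : Type} [LinearOrder I] [WellFoundedLT I] (hI : ∀ i : I, (Iio i).Countable)
  (hunc : ¬ (univ : Set I).Countable)

include hI hunc in
theorem exists_bound {T : Set I} (hT : T.Countable) : ∃ δ, ∀ t ∈ T, t < δ := by
  by_contra hcon
  push Not at hcon
  apply hunc
  have h1 : (univ : Set I) ⊆ ⋃ t ∈ T, Iio t ∪ {t} := by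
    intro δ _
    obtain ⟨t, ht, h⟩ := hcon δ
    rw [mem_iUnion₂]
    refine ⟨t, ht, ?_⟩
    rcases h.lt_or_eq with h | h
    · exact Or.inl h
    · exact Or.inr h
  exact Countable.mono h1 (hT.biUnion fun t _ => (hI t).union (countable_singleton t))

include hI in
theorem exists_y {X : Set C} (hX : ¬ X.Countable)
    (hL : ∀ M : Set C, IsMeagre M → (X ∩ M).Countable) (V : I → Set P) (φ : I → ℕ → ℕ) :
    ∃ y : I → C, ∀ α, Good X (φ α) (V '' Iio α) (y '' Iio α) (y α) := by
  classical
  set F : ∀ α : I, (∀ β : I, β < α → C) → C := fun α f =>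
    if h : ∃ c, Good X (φ α) (V '' Iio α) {c | ∃ β, ∃ hβ : β < α, f β hβ = c} c then h.choose
    else fun _ => false with hF
  set y : I → C := (wellFounded_lt (α := I)).fix F with hy
  refine ⟨y, fun α => ?_⟩
  have h1 : y α = F α fun β _ => y β := WellFounded.fix_eq _ F α
  have h2 : {c | ∃ β, ∃ _ : β < α, y β = c} = y '' Iio α := by
    ext c
    simp only [mem_ofPred_eq, mem_image, mem_Iio, exists_prop]
  have h3 : ∃ c, Good X (φ α) (V '' Iio α) (y '' Iio α) c :=
    step hX hL (φ α) ((hI α).image V) ((hI α).image y)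
  have h4 : y α = h3.choose := by
    rw [h1, hF]
    simp only [h2]
    rw [dif_pos h3]
  rw [h4]
  exact h3.choose_spec

/-- **Genericity.** -/
theorem generic {X : Set C} {V : I → Set P} {φ : I → ℕ → ℕ} {y : I → C}
    (hy : ∀ α, Good X (φ α) (V '' Iio α) (y '' Iio α) (y α)) {ξ : I} (hVo : IsOpen (V ξ))
    (hd : Dense (V ξ)) (l : List I) (hs : l.Pairwise (· < ·)) (hl : ∀ a ∈ l, ξ < a) :
    Dense (secs (V ξ) (l.map y)) := by
  induction l using List.reverseRecOn with
  | nil => exact hd
  | append_singleton l a ih =>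
    rw [List.pairwise_append] at hs
    have h1 := ih hs.1 fun b hb => hl b (List.mem_append_left _ hb)
    rw [List.map_append, List.map_singleton, secs_append]
    refine (hy a).1 (V ξ) (mem_image_of_mem _ (hl a (by simp))) hVo (l.map y) ?_ h1
    intro c hc
    rw [List.mem_map] at hc
    obtain ⟨b, hb, rfl⟩ := hc
    exact mem_image_of_mem _ (hs.2.2 b hb a (by simp))

/-! ### The set -/

/-- the members of the set by their codes -/
def val (q : ℕ → C) (y : I → C) : ℕ ⊕ I → C := Sum.elim q y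

/-- the set -/
def YY (q : ℕ → C) (y : I → C) : Set C := range (val q y)

include hI hunc in
theorem cover_step {X : Set C} {V : I → Set P} (hV : ∀ U, IsOpen U → ∃ i, V i = U)
    {φ : I → ℕ → ℕ} {y : I → C}
    (hy : ∀ α, Good X (φ α) (V '' Iio α) (y '' Iio α) (y α)) {q : ℕ → C} (hq : Dense (range q))
    {k : ℕ} (δ : I) (O : ℕ → (Fin k → YY q y) → Set (Fin k → C)) (hO : ∀ n t, IsOpen (O n t))
    (hmem : ∀ n t, (fun i => (t i : C)) ∈ O n t) :
    ∃ (δ' : I) (t : ℕ → (Fin k → YY q y)), δ < δ' ∧ ∀ c : Fin k → ℕ ⊕ I,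
      (∀ i α, c i = Sum.inr α → ¬ (δ ≤ α ∧ α < δ')) →
      (fun i => val q y (c i)) ∈ ⋃ n, O n (t n) := by
  classical
  have hcI : Countable (Iio δ) := (hI δ).to_subtype
  set vL : ℕ ⊕ Iio δ → C := Sum.elim q (fun β => y β) with hvL
  have hvLm : ∀ a, vL a ∈ YY q y := by
    intro a
    rcases a with n | β
    · exact ⟨Sum.inl n, rfl⟩
    · exact ⟨Sum.inr β, rfl⟩
  haveI : Nonempty (Fin k → ℕ ⊕ Iio δ) := ⟨fun _ => Sum.inl 0⟩
  obtain ⟨f, hf⟩ := exists_surjective_nat (Fin k → ℕ ⊕ Iio δ)
  set t : ℕ → (Fin k → YY q y) := fun n i => ⟨vL (f n i), hvLm _⟩ with ht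
  set W : Set (Fin k → C) := ⋃ n, O n (t n) with hW
  have hWo : IsOpen W := isOpen_iUnion fun n => hO n _
  have hWL : ∀ a : Fin k → ℕ ⊕ Iio δ, (fun i => vL (a i)) ∈ W := by
    intro a
    obtain ⟨n, rfl⟩ := hf a
    exact mem_iUnion.2 ⟨n, hmem n (t n)⟩
  set E : (Fin k → (ℕ ⊕ Iio δ) ⊕ ℕ) → P → (Fin k → C) := fun e z i => Sum.elim vL z (e i) with hE
  have hEc : ∀ e, Continuous (E e) := by
    intro e
    refine continuous_pi fun i => ?_
    rcases h : e i with a | j
    · simp only [hE, h, Sum.elim_inl]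
      exact continuous_const
    · simp only [hE, h, Sum.elim_inr]
      exact continuous_apply j
  have hVo : ∀ e, IsOpen (E e ⁻¹' W) := fun e => hWo.preimage (hEc e)
  have hVd : ∀ e, Dense (E e ⁻¹' W) := by
    intro e
    have h1 : Dense (Set.pi univ fun _ : ℕ => range q) := dense_pi univ fun _ _ => hq
    refine h1.mono fun z hz => ?_
    choose m hm using fun j => hz j (mem_univ j)
    have h2 : E e z = fun i => vL (Sum.elim id (fun j => Sum.inl (m j)) (e i)) := by
      funext i
      rcases h : e i with a | j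
      · simp only [hE, h, Sum.elim_inl, id]
      · simp only [hE, h, Sum.elim_inr, hvL, Sum.elim_inl, hm]
    rw [mem_preimage, h2]
    exact hWL _
  choose ξ hξ using fun e => hV _ (hVo e)
  obtain ⟨δ', hδ'⟩ := exists_bound hI hunc
    (T := {δ} ∪ range ξ) ((countable_singleton δ).union (countable_range ξ))
  refine ⟨δ', t, hδ' δ (Or.inl rfl), fun c hc => ?_⟩
  set H : Finset I := (Finset.univ.image fun i => Sum.elim (fun _ => δ) id (c i)).filter (δ' ≤ ·)
    with hH
  set l : List I := H.sort (· ≤ ·) with hl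
  have hlm : ∀ a ∈ l, δ' ≤ a := by
    intro a ha
    rw [hl, Finset.mem_sort, hH, Finset.mem_filter] at ha
    exact ha.2
  have hmem : ∀ i α, c i = Sum.inr α → δ' ≤ α → α ∈ l := by
    intro i α hi hα
    rw [hl, Finset.mem_sort, hH, Finset.mem_filter]
    refine ⟨Finset.mem_image.2 ⟨i, Finset.mem_univ _, ?_⟩, hα⟩
    rw [hi]
    rfl
  set e : Fin k → (ℕ ⊕ Iio δ) ⊕ ℕ := fun i => Sum.elim (fun n => Sum.inl (Sum.inl n))
    (fun α => if h : α < δ then Sum.inl (Sum.inr ⟨α, h⟩) else Sum.inr (l.idxOf α)) (c i) with he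
  have hgen : Dense (secs (V (ξ e)) (l.map y)) := by
    refine generic hy (by rw [hξ]; exact hVo e) (by rw [hξ]; exact hVd e) l
      (Finset.sortedLT_sort H).pairwise fun a ha => ?_
    exact lt_of_lt_of_le (hδ' _ (Or.inr (mem_range_self e))) (hlm a ha)
  obtain ⟨z, hz⟩ := hgen.nonempty
  rw [mem_secs, hξ] at hz
  have h3 : E e (app (l.map y) z) = fun i => val q y (c i) := by
    funext i
    rcases h : c i with n | α
    · simp only [hE, he, h, Sum.elim_inl, hvL, val]
    · by_cases hα : α < δ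
      · simp only [hE, he, h, Sum.elim_inr, dif_pos hα, Sum.elim_inl, hvL, val]
      · simp only [hE, he, h, Sum.elim_inr, dif_neg hα, val]
        have h4 : δ' ≤ α := by
          by_contra hcon
          exact hc i α h ⟨not_lt.1 hα, not_le.1 hcon⟩
        have h5 := hmem i α h h4
        have h6 := List.idxOf_lt_length_of_mem h5
        rw [app_get _ _ _ (by rw [List.length_map]; exact h6), List.getElem_map,
          List.getElem_idxOf]
  rw [mem_preimage, h3] at hz
  exact hz

end

end Pool.Agent.Y139.LZ
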