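import Mathlib

/-! Menger and Rothberger spaces, the covering number of the meager ideal and Luzin sets. -/

set_option autoImplicit false

namespace Pool.Agent.Y139.LZ

open Topology Set
open scoped Cardinal

/-- A topological space `Z` is Menger: for every sequence `U 0, U 1, …` of open covers of `Z` there are
finite sets `F n ⊆ U n` such that `⋃ n, F n` covers `Z`. -/
def IsMenger (Z : Type) [TopologicalSpace Z] : Prop :=
  ∀ U : ℕ → Set (Set Z), (∀ n, (∀ u ∈ U n, IsOpen u) ∧ ⋃₀ U n = univ) →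
    ∃ F : ℕ → Set (Set Z), (∀ n, F n ⊆ U n ∧ (F n).Finite) ∧ ⋃ n, ⋃₀ F n = univ

/-- A topological space `Z` is Rothberger: for every sequence `U 0, U 1, …` of open covers of `Z` there
are `V n ∈ U n` such that the `V n` cover `Z`. -/
def IsRothberger (Z : Type) [TopologicalSpace Z] : Prop :=
  ∀ U : ℕ → Set (Set Z), (∀ n, (∀ u ∈ U n, IsOpen u) ∧ ⋃₀ U n = univ) →
    ∃ V : ℕ → Set Z, (∀ n, V n ∈ U n) ∧ ⋃ n, V n = univ

/-- `cov(M)`: the least cardinality of a family of meager subsets of the Cantor space `ℕ → Bool` whose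
union is the whole space. -/
noncomputable def covM : Cardinal.{0} :=
  sInf {κ | ∃ F : Set (Set (ℕ → Bool)), (∀ M ∈ F, IsMeagre M) ∧ ⋃₀ F = univ ∧ #F = κ}

/-- `X` is a `κ`-Luzin set of reals: `|X| ≥ κ`, and `|X ∩ M| < κ` for every meager set `M`. -/
def IsLuzin (κ : Cardinal.{0}) (X : Set (ℕ → Bool)) : Prop :=
  κ ≤ #X ∧ ∀ M : Set (ℕ → Bool), IsMeagre M → #(X ∩ M : Set (ℕ → Bool)) < κ

end Pool.Agent.Y139.LZ
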