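import Pool.Agent.Y139.LZ.Cons
import Pool.Agent.Y139.LZ.Defs

/-! Luzin sets and sets all of whose finite powers are Rothberger. -/

set_option autoImplicit false

namespace Pool.Agent.Y139.LZ

open Topology Filter Set
open Cardinal hiding univ mk

section
variable {I : Type} [LinearOrder I] [WellFoundedLT I] (hI : ∀ i : I, (Iio i).Countable)
  (hunc : ¬ (univ : Set I).Countable)

include hI hunc in
/-- **The finite powers are Rothberger.** -/
theorem rothberger_pow [Nonempty I] {X : Set C} {V : I → Set P}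
    (hV : ∀ U, IsOpen U → ∃ i, V i = U) {φ : I → ℕ → ℕ} {y : I → C}
    (hy : ∀ α, Good X (φ α) (V '' Iio α) (y '' Iio α) (y α)) {q : ℕ → C} (hq : Dense (range q))
    (k : ℕ) : IsRothberger (Fin k → YY q y) := by
  classical
  intro U hU
  have hind : IsInducing fun (t : Fin k → YY q y) (i : Fin k) => (t i : C) :=
    IsInducing.piMap fun _ => IsInducing.subtypeVal
  have hex : ∀ (n : ℕ) (t : Fin k → YY q y), ∃ O : Set (Fin k → C), IsOpen O ∧
      (fun i => (t i : C)) ∈ O ∧ (fun (t : Fin k → YY q y) (i : Fin k) => (t i : C)) ⁻¹' O ∈ U n := by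
    intro n t
    have h1 : t ∈ ⋃₀ U n := by
      rw [(hU n).2]
      exact mem_univ _
    obtain ⟨u, hu, htu⟩ := h1
    obtain ⟨O, hO, hOu⟩ := hind.isOpen_iff.1 ((hU n).1 u hu)
    refine ⟨O, hO, ?_, ?_⟩
    · rw [← hOu] at htu
      exact htu
    · rw [hOu]
      exact hu
  choose O hO hmem hpre using hex
  have hstep := fun (j : ℕ) (δ : I) => cover_step hI hunc hV hy hq (k := k) δ
    (fun n t => O (n * (k + 1) + j) t) (fun n t => hO _ _) (fun n t => hmem _ _)
  choose D t hlt hcov using hstep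
  -- the sequence
  set d : ℕ → I := fun j => Nat.rec (Classical.arbitrary I) (fun j δ => D j δ) j with hd
  have hds : ∀ j, d (j + 1) = D j (d j) := fun j => rfl
  have hmono : StrictMono d := strictMono_nat_of_lt_succ fun j => by
    rw [hds]
    exact hlt j _
  refine ⟨fun m => (fun (t : Fin k → YY q y) (i : Fin k) => (t i : C)) ⁻¹'
    O (m / (k + 1) * (k + 1) + m % (k + 1)) (t (m % (k + 1)) (d (m % (k + 1))) (m / (k + 1))),
    fun m => ?_, ?_⟩
  · have h1 := hpre (m / (k + 1) * (k + 1) + m % (k + 1))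
      (t (m % (k + 1)) (d (m % (k + 1))) (m / (k + 1)))
    beta_reduce
    rw [Nat.div_add_mod'] at h1 ⊢
    exact h1
  · rw [eq_univ_iff_forall]
    intro s
    have hcode : ∀ i, ∃ c, val q y c = (s i : C) := fun i => (s i).2
    choose c hc using hcode
    have hpig : ∃ j ≤ k, ∀ i α, c i = Sum.inr α → ¬ (d j ≤ α ∧ α < d (j + 1)) := by
      by_contra hcon
      push Not at hcon
      have h2 : ∀ j : Fin (k + 1), ∃ (i : Fin k) (α : I), c i = Sum.inr α ∧
          (d j ≤ α ∧ α < d ((j : ℕ) + 1)) := fun j => by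
        obtain ⟨i, α, h3, h4⟩ := hcon j (Nat.lt_succ_iff.1 j.2)
        exact ⟨i, α, h3, h4⟩
      choose g a hga hgd using h2
      obtain ⟨j, j', hne, hgj⟩ := Fintype.exists_ne_map_eq_of_card_lt g (by simp)
      have haa : a j = a j' := by
        have h3 := hga j
        rw [hgj, hga j'] at h3
        exact (Sum.inr.inj h3).symm
      have key : ∀ j j' : Fin (k + 1), j < j' → a j = a j' → False := by
        intro j j' hlt' h3
        have h4 := (hgd j).2
        have h5 := (hgd j').1
        rw [h3] at h4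
        have h6 : d ((j : ℕ) + 1) ≤ d j' := hmono.monotone hlt'
        exact absurd (lt_of_lt_of_le h4 h6) (not_lt.2 h5)
      rcases lt_or_gt_of_ne hne with h | h
      · exact key j j' h haa
      · exact key j' j h haa.symm
    obtain ⟨j, hj, hjc⟩ := hpig
    have h1 := hcov j (d j) c hjc
    obtain ⟨n, hn⟩ := mem_iUnion.1 h1
    refine mem_iUnion.2 ⟨n * (k + 1) + j, ?_⟩
    have h2 : (n * (k + 1) + j) % (k + 1) = j := by
      rw [Nat.mul_add_mod_self_right]
      exact Nat.mod_eq_of_lt (by omega)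
    have h3 : (n * (k + 1) + j) / (k + 1) = n := by
      rw [Nat.add_div_of_dvd_right (Dvd.intro_left n rfl), Nat.mul_div_cancel _ (by omega),
        Nat.div_eq_of_lt (by omega), add_zero]
    rw [mem_preimage, h2, h3]
    have h4 : (fun i => (s i : C)) = fun i => val q y (c i) := funext fun i => (hc i).symm
    rw [h4]
    exact hn

end

/-- the number of differences tends to infinity -/
theorem exists_cnt {x c : C} (h : {n | x n ≠ c n}.Infinite) (n : ℕ) : ∃ m, n < cnt x c m := by
  obtain ⟨T, hT, hTc⟩ := h.exists_subset_card_eq (n + 1)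
  refine ⟨T.sup id, ?_⟩
  have h1 : T ⊆ (Finset.range (T.sup id + 1)).filter fun i => x i ≠ c i := by
    intro i hi
    rw [Finset.mem_filter, Finset.mem_range]
    exact ⟨Nat.lt_succ_of_le (Finset.le_sup (f := id) hi), hT hi⟩
  have h2 := Finset.card_le_card h1
  unfold cnt
  omega

theorem cnt_mono (x c : C) : Monotone (cnt x c) := by
  intro a b hab
  unfold cnt
  refine Finset.card_le_card (Finset.filter_subset_filter _ (Finset.range_mono (by omega)))

/-- **The product is not Menger.** -/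
theorem not_menger {X Y : Set C} (h1 : ∀ x ∈ X, ∀ c ∈ Y, {n | x n ≠ c n}.Infinite)
    (h2 : ∀ g : ℕ → ℕ, ∃ x ∈ X, ∃ c ∈ Y, ∀ n, cnt x c (g n) ≤ n) : ¬ IsMenger (X × Y) := by
  classical
  intro hM
  set u : ℕ → ℕ → Set (X × Y) := fun n m => {p | n < cnt p.1 p.2 m} with hu
  have huo : ∀ n m, IsOpen (u n m) := by
    intro n m
    have hc : Continuous fun p : X × Y => cnt p.1 p.2 m := by
      have e : (fun p : X × Y => cnt p.1 p.2 m) = fun p : X × Y =>
          ∑ i ∈ Finset.range (m + 1), if (p.1 : C) i ≠ (p.2 : C) i then 1 else 0 := by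
        funext p
        unfold cnt
        rw [Finset.card_filter]
      rw [e]
      refine continuous_finsetSum _ fun i _ => ?_
      have h3 : Continuous fun p : X × Y => ((p.1 : C) i, (p.2 : C) i) :=
        ((continuous_apply i).comp (continuous_subtype_val.comp continuous_fst)).prodMk
          ((continuous_apply i).comp (continuous_subtype_val.comp continuous_snd))
      exact (continuous_of_discreteTopology
        (f := fun b : Bool × Bool => if b.1 ≠ b.2 then 1 else 0)).comp h3
    exact isOpen_lt continuous_const hc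
  obtain ⟨F, hF, hcov⟩ := hM (fun n => range (u n)) fun n => ⟨by
    rintro _ ⟨m, rfl⟩
    exact huo n m, by
    rw [eq_univ_iff_forall]
    intro p
    obtain ⟨m, hm⟩ := exists_cnt (h1 p.1 p.1.2 p.2 p.2.2) n
    exact ⟨u n m, mem_range_self m, hm⟩⟩
  have hg : ∀ n, ∃ g : ℕ, ⋃₀ F n ⊆ u n g := by
    intro n
    have h3 : ∀ s ∈ F n, ∃ m, u n m = s := fun s hs => (hF n).1 hs
    choose! m hm using h3
    refine ⟨(hF n).2.toFinset.sup m, fun p ⟨s, hs, hps⟩ => ?_⟩
    rw [← hm s hs] at hps
    have h4 : m s ≤ (hF n).2.toFinset.sup m :=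
      Finset.le_sup ((hF n).2.mem_toFinset.2 hs)
    exact lt_of_lt_of_le hps (cnt_mono _ _ h4)
  choose g hg using hg
  obtain ⟨x, hx, c, hc, h3⟩ := h2 g
  have h4 : ((⟨x, hx⟩, ⟨c, hc⟩) : X × Y) ∈ ⋃ n, ⋃₀ F n := by
    rw [hcov]
    exact mem_univ _
  obtain ⟨n, hn⟩ := mem_iUnion.1 h4
  have h5 : n < cnt x c (g n) := hg n hn
  exact absurd (h3 n) (not_le.2 h5)

/-- Rothberger spaces are Menger -/
theorem IsRothberger.isMenger {Z : Type} [TopologicalSpace Z] (h : IsRothberger Z) :
    IsMenger Z := by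
  intro U hU
  obtain ⟨V, hV, hcov⟩ := h U hU
  refine ⟨fun n => {V n}, fun n => ⟨singleton_subset_iff.2 (hV n), finite_singleton _⟩, ?_⟩
  simp only [sUnion_singleton]
  exact hcov

/-! ### The cardinal -/

theorem covM_set_nonempty :
    {κ | ∃ F : Set (Set (ℕ → Bool)), (∀ M ∈ F, IsMeagre M) ∧ ⋃₀ F = univ ∧ #F = κ}.Nonempty := by
  refine ⟨#(range fun x : C => ({x} : Set C)), range fun x : C => ({x} : Set C), ?_, ?_, rfl⟩
  · rintro _ ⟨x, rfl⟩
    exact singleton_residual x
  · rw [eq_univ_iff_forall]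
    intro x
    exact ⟨{x}, mem_range_self x, rfl⟩

theorem aleph0_lt_covM : ℵ₀ < covM := by
  by_contra hcon
  rw [not_lt] at hcon
  obtain ⟨F, hF, hU, hc⟩ := csInf_mem covM_set_nonempty
  have hcount : F.Countable := by
    rw [← le_aleph0_iff_set_countable, hc]
    exact hcon
  have h1 : (⋂ M ∈ F, Mᶜ) ∈ residual C := (countable_bInter_mem hcount).2 hF
  obtain ⟨x, hx⟩ := (dense_of_mem_residual h1).nonempty
  have h2 : x ∈ ⋃₀ F := by
    rw [hU]
    exact mem_univ _
  obtain ⟨M, hM, hxM⟩ := h2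
  exact (mem_iInter₂.1 hx M hM) hxM

theorem covM_le : covM ≤ 𝔠 := by
  refine (csInf_le' ⟨range fun x : C => ({x} : Set C), ?_, ?_, rfl⟩ :
    covM ≤ #(range fun x : C => ({x} : Set C))).trans (mk_range_le.trans ?_)
  · rintro _ ⟨x, rfl⟩
    exact singleton_residual x
  · rw [eq_univ_iff_forall]
    intro x
    exact ⟨{x}, mem_range_self x, rfl⟩
  · simp

theorem luzin_countable (hCH : (𝔠 : Cardinal.{0}) = ℵ₁) {X : Set C} (hX : IsLuzin covM X) :
    ¬ X.Countable ∧ ∀ M : Set C, IsMeagre M → (X ∩ M).Countable := by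
  constructor
  · intro h
    have h1 : #X ≤ ℵ₀ := le_aleph0_iff_set_countable.2 h
    exact absurd (aleph0_lt_covM.trans_le (hX.1.trans h1)) (lt_irrefl _)
  · intro M hM
    have h1 := (hX.2 M hM).trans_le (covM_le.trans hCH.le)
    rw [← le_aleph0_iff_set_countable]
    exact Order.lt_succ_iff.1 (by rwa [succ_aleph0])

/-- **Main theorem.** -/
theorem main (hCH : (𝔠 : Cardinal.{0}) = ℵ₁) (X : Set C) (hX : IsLuzin covM X) :
    ∃ Y : Set C, (∀ k : ℕ, IsRothberger (Fin k → Y)) ∧ ¬ IsMenger (X × Y) := by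
  classical
  obtain ⟨hXc, hL⟩ := luzin_countable hCH hX
  -- the index set
  set I : Type := (ord ℵ₁).ToType with hI
  have hcardI : #I = ℵ₁ := Cardinal.mk_ord_toType _
  have hIio : ∀ i : I, (Iio i).Countable := by
    intro i
    have h1 : #(Iio i) < ℵ₁ := by
      have := mk_Iio_lt i (by rw [hcardI]; exact (Ordinal.type_toType _).symm)
      rwa [hcardI] at this
    rw [← le_aleph0_iff_set_countable]
    exact Order.lt_succ_iff.1 (by rwa [succ_aleph0])
  have hunc : ¬ (univ : Set I).Countable := by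
    intro h
    have h1 : #(univ : Set I) ≤ ℵ₀ := le_aleph0_iff_set_countable.2 h
    rw [mk_univ, hcardI] at h1
    exact absurd aleph0_lt_aleph_one (not_lt.2 h1)
  have : Nonempty I := by
    by_contra hcon
    rw [not_nonempty_iff] at hcon
    exact hunc (Set.to_countable _)
  -- the enumerations
  obtain ⟨eφ⟩ : Nonempty (I ≃ (ℕ → ℕ)) := by
    rw [← Cardinal.eq, hcardI, ← hCH]
    simp
  obtain ⟨eV⟩ : Nonempty (I ≃ Set ℕ) := by
    rw [← Cardinal.eq, hcardI, ← hCH]
    simp
  have hbas := TopologicalSpace.isBasis_countableBasis P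
  have hbne : (TopologicalSpace.countableBasis P).Nonempty := by
    obtain ⟨B, hB, _, _⟩ := hbas.exists_subset_of_mem_open (mem_univ (fun _ _ => false : P))
      isOpen_univ
    exact ⟨B, hB⟩
  obtain ⟨b, hb⟩ := (TopologicalSpace.countable_countableBasis P).exists_eq_range hbne
  set V : I → Set P := fun i => ⋃ n ∈ eV i, b n with hVdef
  have hV : ∀ U, IsOpen U → ∃ i, V i = U := by
    intro U hU
    refine ⟨eV.symm {n | b n ⊆ U}, ?_⟩
    simp only [hVdef, Equiv.apply_symm_apply]
    apply Subset.antisymm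
    · exact iUnion₂_subset fun n hn => hn
    · intro x hx
      obtain ⟨B, hB, hxB, hBU⟩ := hbas.exists_subset_of_mem_open hx hU
      rw [hb] at hB
      obtain ⟨n, rfl⟩ := hB
      exact mem_iUnion₂.2 ⟨n, hBU, hxB⟩
  obtain ⟨y, hy⟩ := exists_y hIio hXc hL V (fun i => eφ i)
  -- the dense sequence
  obtain ⟨c₀, _, hc₀, _⟩ := step hXc hL (fun _ => 0) (W := ∅) countable_empty (S := ∅)
    countable_empty
  obtain ⟨e, he⟩ := Q_countable.exists_eq_range ⟨fun _ => false, by simp [Q]⟩
  set q : ℕ → C := fun n => ad c₀ (e n) with hq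
  have hqd : Dense (range q) := by
    rw [dense_iff_inter_open]
    intro U hU ⟨w, hw⟩
    have hlim : Tendsto (fun (N : ℕ) (i : ℕ) => if i < N then w i else c₀ i) atTop (𝓝 w) := by
      rw [tendsto_pi_nhds]
      intro i
      refine tendsto_const_nhds.congr' ?_
      filter_upwards [eventually_gt_atTop i] with N hN
      rw [if_pos hN]
    obtain ⟨N, hN⟩ := (hlim.eventually (hU.mem_nhds hw)).exists
    refine ⟨_, hN, ?_⟩
    have h1 : (fun i => xor (c₀ i) (if i < N then w i else c₀ i)) ∈ Q := by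
      refine (finite_lt_nat N).subset fun i hi => ?_
      rw [mem_ofPred_eq] at hi ⊢
      by_contra hcon
      beta_reduce at hi
      rw [if_neg hcon] at hi
      simp at hi
    rw [he] at h1
    obtain ⟨n, hn⟩ := h1
    refine ⟨n, ?_⟩
    funext i
    simp only [hq, ad, hn]
    cases c₀ i <;> simp
  have hqX : ∀ n, ∀ x ∈ X, {i | x i ≠ q n i}.Infinite := by
    intro n x hx hfin
    have h1 : (e n) ∈ Q := by
      rw [he]
      exact mem_range_self n
    refine hc₀ x hx ((hfin.union h1).subset fun i hi => ?_)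
    by_contra hcon
    rw [mem_union, not_or] at hcon
    have h2 : x i = q n i := not_not.1 hcon.1
    have h3 : e n i = false := by
      have : ¬ e n i = true := hcon.2
      simpa using this
    apply hi
    rw [h2, hq]
    simp only [ad, h3, Bool.xor_false]
  refine ⟨YY q y, fun k => rothberger_pow hIio hunc hV hy hqd k, not_menger ?_ ?_⟩
  · rintro x hx _ ⟨a, rfl⟩
    rcases a with n | α
    · exact hqX n x hx
    · exact (hy α).2.1 x hx
  · intro g
    obtain ⟨x, hx, h⟩ := (hy (eφ.symm g)).2.2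
    refine ⟨x, hx, y (eφ.symm g), ⟨Sum.inr _, rfl⟩, fun n => ?_⟩
    have h1 := h n
    rw [Equiv.apply_symm_apply] at h1
    exact h1

end Pool.Agent.Y139.LZ
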