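import Pool.Agent.Y139.LZ.Basic

/-! The step of the construction. -/

set_option autoImplicit false

namespace Pool.Agent.Y139.LZ

open Topology Filter Set

/-- the number of differences up to `m` -/
def cnt (x c : C) (m : ℕ) : ℕ := ((Finset.range (m + 1)).filter fun i => x i ≠ c i).card

/-- the members of the sparse set -/
def hh (φ : ℕ → ℕ) (n : ℕ) : ℕ := 2 * n + 1 + ∑ j ∈ Finset.range (n + 1), φ j

theorem hh_succ (φ : ℕ → ℕ) (n : ℕ) : hh φ n + 2 ≤ hh φ (n + 1) := by
  unfold hh
  rw [Finset.sum_range_succ _ (n + 1)]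
  omega

theorem hh_mono (φ : ℕ → ℕ) : StrictMono (hh φ) :=
  strictMono_nat_of_lt_succ fun n => by
    have := hh_succ φ n
    omega

theorem lt_hh (φ : ℕ → ℕ) (n : ℕ) : φ n < hh φ n := by
  unfold hh
  have h1 : φ n ≤ ∑ j ∈ Finset.range (n + 1), φ j :=
    Finset.single_le_sum (f := fun j => φ j) (fun _ _ => Nat.zero_le _)
      (Finset.mem_range.2 (Nat.lt_succ_self n))
  omega

theorem compl_infinite (φ : ℕ → ℕ) : {n | n ∉ range (hh φ)}.Infinite := by
  refine infinite_of_injective_forall_mem (f := fun n => hh φ n + 1)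
    (fun a b hab => (hh_mono φ).injective (Nat.succ_injective hab)) fun n => ?_
  rintro ⟨m, hm⟩
  have h1 : n < m := by
    by_contra hcon
    rw [not_lt] at hcon
    have := (hh_mono φ).monotone hcon
    omega
  have h2 := (hh_mono φ).monotone (Nat.succ_le_of_lt h1)
  have h3 := hh_succ φ n
  have h4 : hh φ (n + 1) ≤ hh φ m := h2
  omega

theorem cnt_le (φ : ℕ → ℕ) {x c : C} (h : ∀ i, i ∉ range (hh φ) → x i = c i) (n : ℕ) :
    cnt x c (φ n) ≤ n := by
  classical
  unfold cnt
  have h1 : ((Finset.range (φ n + 1)).filter fun i => x i ≠ c i) ⊆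
      (Finset.range n).image (hh φ) := by
    intro i hi
    rw [Finset.mem_filter, Finset.mem_range] at hi
    have h2 : i ∈ range (hh φ) := by
      by_contra hcon
      exact hi.2 (h i hcon)
    obtain ⟨j, rfl⟩ := h2
    refine Finset.mem_image_of_mem _ (Finset.mem_range.2 ?_)
    by_contra hcon
    rw [not_lt] at hcon
    have h3 := (hh_mono φ).monotone hcon
    have h4 := lt_hh φ n
    omega
  exact (Finset.card_le_card h1).trans (Finset.card_image_le.trans (by rw [Finset.card_range]))

open Classical in
/-- the parametrization of the subsets of the sparse set -/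
noncomputable def ps (φ : ℕ → ℕ) (u : C) : C := fun k =>
  if h : ∃ n, hh φ n = k then u h.choose else false

theorem ps_hh (φ : ℕ → ℕ) (u : C) (n : ℕ) : ps φ u (hh φ n) = u n := by
  classical
  unfold ps
  have h : ∃ m, hh φ m = hh φ n := ⟨n, rfl⟩
  rw [dif_pos h, (hh_mono φ).injective h.choose_spec]

theorem ps_not (φ : ℕ → ℕ) (u : C) {k : ℕ} (hk : k ∉ range (hh φ)) : ps φ u k = false := by
  classical
  unfold ps
  rw [dif_neg]
  exact hk

theorem ps_continuous (φ : ℕ → ℕ) : Continuous (ps φ) := by
  classical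
  refine continuous_pi fun k => ?_
  by_cases hk : ∃ n, hh φ n = k
  · have : (fun u => ps φ u k) = fun u => u hk.choose := by
      funext u
      unfold ps
      rw [dif_pos hk]
    rw [this]
    exact continuous_apply _
  · have : (fun u => ps φ u k) = fun _ => false := by
      funext u
      unfold ps
      rw [dif_neg hk]
    rw [this]
    exact continuous_const

theorem ps_injective (φ : ℕ → ℕ) : Function.Injective (ps φ) := by
  intro u v h
  funext n
  rw [← ps_hh φ u n, ← ps_hh φ v n, h]

/-- The conditions on a new point. -/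
def Good (X : Set C) (φ : ℕ → ℕ) (W : Set (Set P)) (S : Set C) (c : C) : Prop :=
  (∀ V ∈ W, IsOpen V → ∀ l : List C, (∀ a ∈ l, a ∈ S) → Dense (secs V l) →
    Dense (sec (secs V l) c)) ∧
  (∀ x ∈ X, {n | x n ≠ c n}.Infinite) ∧ ∃ x ∈ X, ∀ n, cnt x c (φ n) ≤ n

/-- **The step.** -/
theorem step {X : Set C} (hX : ¬ X.Countable) (hL : ∀ M : Set C, IsMeagre M → (X ∩ M).Countable)
    (φ : ℕ → ℕ) {W : Set (Set P)} (hW : W.Countable) {S : Set C} (hS : S.Countable) :
    ∃ c, Good X φ W S c := by
  classical
  -- the generic set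
  have hc1 : Countable W := hW.to_subtype
  have hc2 : Countable S := hS.to_subtype
  set G : Set C := ⋂ p : W × List S,
    {c | IsOpen (p.1 : Set P) → Dense (secs (p.1 : Set P) (p.2.map Subtype.val)) →
      Dense (sec (secs (p.1 : Set P) (p.2.map Subtype.val)) c)} with hG
  have hGr : G ∈ residual C := by
    rw [hG, countable_iInter_mem]
    intro p
    by_cases h : IsOpen (p.1 : Set P) ∧ Dense (secs (p.1 : Set P) (p.2.map Subtype.val))
    · exact mem_of_superset (ku (secs_open h.1 _) h.2) fun c hc _ _ => hc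
    · refine mem_of_superset univ_mem fun c _ h1 h2 => absurd ⟨h1, h2⟩ h
  obtain ⟨T, hTo, hTd, hTc, hTG⟩ := mem_residual_iff.1 hGr
  have hb := TopologicalSpace.isBasis_countableBasis C
  have hBc := TopologicalSpace.countable_countableBasis C
  -- the choice of points in the basis sets
  have hch : ∀ B : Set C, ∃ u : C, B.Nonempty → u ∈ B := fun B => by
    by_cases h : B.Nonempty
    · exact ⟨h.some, fun _ => h.some_mem⟩
    · exact ⟨fun _ => false, fun h' => absurd h' h⟩
  choose uB huB using hch
  set R : Set C := ⋂ t ∈ T, ⋂ B ∈ TopologicalSpace.countableBasis C,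
    {x | ad x (ps φ (uB B)) ∈ t} with hR
  have hRr : R ∈ residual C := by
    rw [hR, countable_bInter_mem hTc]
    intro t ht
    rw [countable_bInter_mem hBc]
    intro B _
    exact residual_of_dense_open ((hTo t ht).preimage (continuous_ad_left _))
      (dense_preimage_ad (hTd t ht) _)
  obtain ⟨x, hxX, hxR⟩ : ∃ x ∈ X, x ∈ R := by
    by_contra hcon
    push Not at hcon
    apply hX
    have h1 : IsMeagre Rᶜ := by
      unfold IsMeagre
      rwa [compl_compl]
    exact Countable.mono (fun x hx => (⟨hx, hcon x hx⟩ : x ∈ X ∩ Rᶜ)) (hL _ h1)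
  -- the generic `u`
  have h1 : ∀ t ∈ T, {u | ad x (ps φ u) ∈ t} ∈ residual C := by
    intro t ht
    refine residual_of_dense_open ((hTo t ht).preimage
      ((continuous_ad_right x).comp (ps_continuous φ))) ?_
    rw [hb.dense_iff]
    intro B hB hne
    refine ⟨uB B, huB B hne, ?_⟩
    rw [hR] at hxR
    exact mem_iInter₂.1 (mem_iInter₂.1 hxR t ht) B hB
  have h2 : (⋂ t ∈ T, {u | ad x (ps φ u) ∈ t}) ∈ residual C := (countable_bInter_mem hTc).2 h1
  have h3 : ∀ q ∈ Q, {u | ad (ad x (ps φ u)) q ∉ X} ∈ residual C := by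
    intro q _
    have hcl : IsClosed {w : C | ∀ i, i ∉ range (hh φ) → w i = ad x q i} := by
      have : {w : C | ∀ i, i ∉ range (hh φ) → w i = ad x q i} =
          ⋂ i : ℕ, ⋂ _ : i ∉ range (hh φ), (fun w : C => w i) ⁻¹' {ad x q i} := by
        ext w
        simp
      rw [this]
      exact isClosed_iInter fun i => isClosed_iInter fun _ =>
        (isClosed_discrete _).preimage (continuous_apply i)
    have h4 : IsMeagre {w : C | ∀ i, i ∉ range (hh φ) → w i = ad x q i} := by
      refine residual_of_flips hcl (compl_infinite φ) fun w hw n hn h => ?_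
      have h5 := hw n hn
      have h6 := h n hn
      rw [Function.update_self, h5] at h6
      cases hq : ad x q n <;> rw [hq] at h6 <;> simp at h6
    have h5 := hL _ h4
    have h6 : {u | ad (ad x (ps φ u)) q ∈ X}.Countable := by
      refine MapsTo.countable_of_injOn (f := fun u => ad (ad x (ps φ u)) q) (fun u hu => ?_)
        (fun u _ v _ huv => ?_) h5
      · refine ⟨hu, fun i hi => ?_⟩
        simp only [ad, ps_not φ u hi, Bool.xor_false]
      · have h7 : ad x (ps φ u) = ad x (ps φ v) := by
          have := congrArg (fun w => ad w q) huv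
          simpa only [ad_ad] using this
        apply ps_injective φ
        funext i
        have h8 := congrFun h7 i
        simp only [ad] at h8
        exact Bool.xor_right_inj.1 h8
    have h7 := countable_residual h6
    exact mem_of_superset h7 fun u hu => hu
  have h4 := (countable_bInter_mem Q_countable).2 h3
  obtain ⟨u, hu1, hu2⟩ := (dense_of_mem_residual (inter_mem h2 h4)).nonempty
  refine ⟨ad x (ps φ u), ?_, ?_, x, hxX, cnt_le φ fun i hi => ?_⟩
  · have h5 : ad x (ps φ u) ∈ G := hTG fun t ht => mem_iInter₂.1 hu1 t ht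
    intro V hV hVo l hl hd
    have h6 := mem_iInter.1 h5 (⟨V, hV⟩, l.attach.map fun a => ⟨a.1, hl a.1 a.2⟩)
    have h7 : ((l.attach.map fun a => (⟨a.1, hl a.1 a.2⟩ : S)).map Subtype.val) = l := by
      rw [List.map_map]
      exact List.attach_map_subtype_val l
    simp only [mem_ofPred_eq, h7] at h6
    exact h6 hVo hd
  · intro z hz hfin
    set q : C := fun n => xor (z n) (ad x (ps φ u) n) with hq
    have hqQ : q ∈ Q := by
      refine hfin.subset fun n hn => ?_
      have hn : xor (z n) (ad x (ps φ u) n) = true := hn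
      intro h
      rw [h] at hn
      simp at hn
    have h5 := mem_iInter₂.1 hu2 q hqQ
    apply h5
    have h6 : ad (ad x (ps φ u)) q = z := by
      funext n
      simp only [ad, hq]
      cases z n <;> cases x n <;> cases ps φ u n <;> rfl
    rw [h6]
    exact hz
  · simp only [ad, ps_not φ u hi, Bool.xor_false]

end Pool.Agent.Y139.LZ
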